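import Pool.Agent.Helper402.ThetaWire

set_option autoImplicit false

namespace Pool.Agent.Results.MP_f310b7_an.StrictDimFour

open Pool.Agent.Helper402.Theta

/-- a nondegenerate simplex with vertices in the cube `[0,1]^4` (an affine basis of `ℝ^4` whose
five points lie in the cube) -/
def InCube (b : AffineBasis (Fin 5) ℝ (Fin 4 → ℝ)) : Prop :=
  ∀ j, b j ∈ Set.Icc (0 : Fin 4 → ℝ) 1

/-- norm of the interpolation projector with nodes the vertices of the simplex: the supremum over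
the cube of the sum of the absolute values of the barycentric coordinates -/
noncomputable def projNorm (b : AffineBasis (Fin 5) ℝ (Fin 4 → ℝ)) : ℝ :=
  sSup ((fun x => ∑ j, |b.coord j x|) '' Set.Icc (0 : Fin 4 → ℝ) 1)

/-- absorption index: the least `σ ≥ 1` such that the homothetic copy of the simplex with ratio `σ`
and centre its centre of gravity contains the cube -/
noncomputable def absIndex (b : AffineBasis (Fin 5) ℝ (Fin 4 → ℝ)) : ℝ :=
  sInf {σ : ℝ | 1 ≤ σ ∧ Set.Icc (0 : Fin 4 → ℝ) 1 ⊆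
    (AffineMap.homothety ((5 : ℝ)⁻¹ • ∑ j, b j) σ) '' convexHull ℝ (Set.range b)}

/-- `θ_4(Q_4)` -/
noncomputable def theta4 : ℝ := sInf (projNorm '' {b | InCube b})

/-- `ξ_4(Q_4)` -/
noncomputable def xi4 : ℝ := sInf (absIndex '' {b | InCube b})

theorem projNorm_lower (b : AffineBasis (Fin 5) ℝ (Fin 4 → ℝ)) (hb : InCube b) :
    2.246 < projNorm b := by
  obtain ⟨x, hx, hlt⟩ := exists_vertex b hb
  have hcs : Continuous fun x => ∑ a, |b.coord a x| :=
    continuous_finsetSum _ fun a _ => ((b.coord a).continuous_of_finiteDimensional).abs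
  exact hlt.trans_le (le_csSup ((isCompact_Icc (a := (0 : Fin 4 → ℝ)) (b := 1)).bddAbove_image
      hcs.continuousOn) (Set.mem_image_of_mem _ hx))

theorem S0_top : affineSpan ℝ (Set.range S0) = ⊤ := by
  rw [S0_indep.affineSpan_eq_top_iff_card_eq_finrank_add_one]
  simp

/-- the explicit simplex as an affine basis -/
noncomputable def B0 : AffineBasis (Fin 5) ℝ (Fin 4 → ℝ) := ⟨S0, S0_indep, S0_top⟩

/-- `θ_4(Q_4) ≥ 2.246`, `ξ_4(Q_4) ≤ 14393/3498`, and strict inequality
`2(ξ_4(Q_4) - 1) < 5(θ_4(Q_4) - 1)` -/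
theorem result : (2.246 : ℝ) ≤ theta4 ∧ xi4 ≤ 14393 / 3498 ∧ 2 * (xi4 - 1) < 5 * (theta4 - 1) := by
  have hmem : B0 ∈ {b : AffineBasis (Fin 5) ℝ (Fin 4 → ℝ) | InCube b} := S0_mem
  have h2 : (2.246 : ℝ) ≤ theta4 := by
    refine le_csInf ⟨_, Set.mem_image_of_mem _ hmem⟩ ?_
    rintro _ ⟨b, hb, rfl⟩
    exact (projNorm_lower b hb).le
  have h1 : xi4 ≤ 14393 / 3498 := by
    have hinner : absIndex B0 ≤ 14393 / 3498 := by
      refine csInf_le ⟨1, fun σ hσ => hσ.1⟩ ⟨by norm_num, S0_absorb⟩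
    refine (csInf_le ?_ (Set.mem_image_of_mem _ hmem)).trans hinner
    refine ⟨0, ?_⟩
    rintro _ ⟨v, -, rfl⟩
    refine Real.sInf_nonneg fun σ hσ => ?_
    linarith [hσ.1]
  refine ⟨h2, h1, ?_⟩
  norm_num at h2 ⊢
  linarith

end Pool.Agent.Results.MP_f310b7_an.StrictDimFour
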